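import Pool.Agent.Lib.helper22.CXEtrB

/-! Pareto optimal equilibria of win-lose games. -/

namespace Pool.Agent.H.MP_d68d66_lc

open Pool.Agent.Lib.CX Pool.Agent.Lib.ER Finset

set_option synthInstance.maxSize 4000

abbrev T3 := ℕ × ℕ × ℕ
abbrev WL := (List Unit × List Unit × List Unit) × List T3 × List T3 × List T3

def pay (W : List T3) {a b c : ℕ} (x : Fin a → ℝ) (y : Fin b → ℝ) (z : Fin c → ℝ) : ℝ :=
  ∑ i, ∑ j, ∑ k, x i * y j * z k * if (i.1, j.1, k.1) ∈ W then 1 else 0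

def PO' (a b c : ℕ) (U V W : List T3) : Prop := ∃ x ∈ stdSimplex ℝ (Fin a), ∃ y ∈ stdSimplex ℝ (Fin b),
  ∃ z ∈ stdSimplex ℝ (Fin c), (∀ x' ∈ stdSimplex ℝ (Fin a), pay U x' y z ≤ pay U x y z) ∧
  (∀ y' ∈ stdSimplex ℝ (Fin b), pay V x y' z ≤ pay V x y z) ∧
  (∀ z' ∈ stdSimplex ℝ (Fin c), pay W x y z' ≤ pay W x y z) ∧
  ¬∃ x' ∈ stdSimplex ℝ (Fin a), ∃ y' ∈ stdSimplex ℝ (Fin b), ∃ z' ∈ stdSimplex ℝ (Fin c), pay U x y z ≤ pay U x' y' z' ∧
    pay V x y z ≤ pay V x' y' z' ∧ pay W x y z ≤ pay W x' y' z' ∧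
    (pay U x y z < pay U x' y' z' ∨ pay V x y z < pay V x' y' z' ∨ pay W x y z < pay W x' y' z')

def PO (g : WL) : Prop := PO' g.1.1.length g.1.2.1.length g.1.2.2.length g.2.1 g.2.2.1 g.2.2.2

section
variable {a b c : ℕ} {W : List T3} {x : Fin a → ℝ} {y : Fin b → ℝ} {z : Fin c → ℝ}

theorem avg {ι : Type} [Fintype ι] {x f : ι → ℝ} (hx : x ∈ stdSimplex ℝ ι) {v} (h : ∀ i, f i ≤ v) : ∑ i, x i * f i ≤ v :=
  (sum_le_sum fun i _ => mul_le_mul_of_nonneg_left (h i) (hx.1 i)).trans (by rw [← sum_mul, hx.2, one_mul])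

theorem avg_eq {ι : Type} [Fintype ι] {x f : ι → ℝ} (hx : x ∈ stdSimplex ℝ ι) {v} (h : ∀ i, f i = v) :
    ∑ i, x i * f i = v := by simp only [h, ← sum_mul, hx.2, one_mul]

theorem pay1 : pay W x y z = ∑ i, x i * ∑ j, y j * ∑ k, z k * if (i.1, j.1, k.1) ∈ W then 1 else 0 := by
  simp only [pay, mul_sum, mul_assoc]

theorem pay2 : pay W x y z = ∑ j, y j * ∑ k, z k * ∑ i, x i * if (i.1, j.1, k.1) ∈ W then 1 else 0 := by
  simp only [pay, mul_sum]
  rw [sum_comm]
  exact sum_congr rfl fun _ _ => sum_comm.trans (sum_congr rfl fun _ _ => sum_congr rfl fun _ _ => by ring)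

theorem pay3 : pay W x y z = ∑ k, z k * ∑ j, y j * ∑ i, x i * if (i.1, j.1, k.1) ∈ W then 1 else 0 := by
  simp only [pay2, mul_sum]
  exact sum_comm.trans (sum_congr rfl fun _ _ => sum_congr rfl fun _ _ => sum_congr rfl fun _ _ => by ring)

end

def cells (a n : ℕ) : List T3 := List.range a ×ˢ List.range n ×ˢ List.range n

/-- the game: `C k s t` tells that the `k`-th extra strategy of the first player loses -/
def game (K n : ℕ) (C : ℕ → ℕ → ℕ → Bool) : WL :=
  ((List.replicate (3 + K) (), List.replicate n (), List.replicate n ()),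
    (cells (3 + K) n).filter fun e => if e.1 < 3 then decide ((e.1 + e.2.1 + e.2.2) % 3 ≠ 0) else !C (e.1 - 3) e.2.1 e.2.2,
    (cells 3 n).filter fun e => decide ((e.1 + e.2.1 + e.2.2) % 3 ≠ 1),
    (cells 3 n).filter fun e => decide ((e.1 + e.2.1 + e.2.2) % 3 ≠ 2))

theorem sum3 {K} (f : Fin (3 + K) → ℝ) (h : ∀ i, 3 ≤ i.1 → f i = 0) :
    ∑ i, f i = f ⟨0, by omega⟩ + f ⟨1, by omega⟩ + f ⟨2, by omega⟩ := by
  rw [Fin.sum_univ_add, Fin.sum_univ_three, sum_eq_zero fun i _ => h _ (by simp), add_zero]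
  rfl

theorem game_iff {K n C} (h3 : 3 ≤ n) : (PO (game K n C) → ∃ y ∈ stdSimplex ℝ (Fin n), ∃ z ∈ stdSimplex ℝ (Fin n),
    ∀ k < K, 1 / 3 ≤ ∑ s, y s * ∑ t, z t * if C k s t then 1 else 0) ∧ ∀ y ∈ stdSimplex ℝ (Fin n),
    ∀ z ∈ stdSimplex ℝ (Fin n), (∀ c < 3, ∑ s, y s * (if s.1 % 3 = c then 1 else 0) = 1 / 3) →
    (∀ k < K, 1 / 3 ≤ ∑ s, y s * ∑ t, z t * if C k s t then 1 else 0) → PO (game K n C) := by
  obtain ⟨W1, W2, W3, e, m1, m2, m3⟩ : ∃ W1 W2 W3, game K n C = ((List.replicate (3 + K) (), List.replicate n (),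
      List.replicate n ()), W1, W2, W3) ∧ (∀ (i : Fin (3 + K)) (j k : Fin n), (i.1, j.1, k.1) ∈ W1 ↔
        if i.1 < 3 then (i.1 + j + k) % 3 ≠ 0 else ¬C (i - 3) j k) ∧
      (∀ (i : Fin (3 + K)) (j k : Fin n), (i.1, j.1, k.1) ∈ W2 ↔ i.1 < 3 ∧ (i.1 + j + k) % 3 ≠ 1) ∧
      ∀ (i : Fin (3 + K)) (j k : Fin n), (i.1, j.1, k.1) ∈ W3 ↔ i.1 < 3 ∧ (i.1 + j + k) % 3 ≠ 2 :=
    ⟨_, _, _, rfl, fun i j k => by simp [cells], fun i j k => by simp [cells],
      fun i j k => by simp [cells]⟩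
  have tot : ∀ x ∈ stdSimplex ℝ (Fin (3 + K)), ∀ y ∈ stdSimplex ℝ (Fin n), ∀ z ∈ stdSimplex ℝ (Fin n),
      pay W1 x y z + pay W2 x y z + pay W3 x y z ≤ ∑ i, x i * if i.1 < 3 then 2 else 1 := fun x hx y hy z hz => by
    simp only [pay1, ← sum_add_distrib, ← mul_add]
    refine sum_le_sum fun i _ => mul_le_mul_of_nonneg_left (avg hy fun j => avg hz fun k => ?_) (hx.1 i)
    simp only [m1, m2, m3]
    split_ifs <;> first | omega | norm_num
  have cm : ∀ y ∈ stdSimplex ℝ (Fin n), ∀ z ∈ stdSimplex ℝ (Fin n), ∀ i : Fin (3 + K), 3 ≤ i.1 →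
      (∑ j, y j * ∑ k, z k * if (i.1, j.1, k.1) ∈ W1 then 1 else 0) =
        1 - ∑ s, y s * ∑ t, z t * if C (i - 3) s t then 1 else 0 := fun y hy z hz i hi => by
    rw [eq_sub_iff_add_eq]
    simp only [← sum_add_distrib, ← mul_add, m1, hi.not_gt, if_false]
    exact avg_eq hy fun j => avg_eq hz fun k => by split_ifs <;> simp_all
  simp only [e, PO, List.length_replicate]
  constructor
  · rintro ⟨x, hx, y, hy, z, hz, n1, n2, n3, po⟩
    refine ⟨y, hy, z, hz, fun k hk => ?_⟩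
    have t := tot x hx y hy z hz
    obtain ⟨m, hm⟩ : ∃ m, m = ∑ i, x i * if i.1 < 3 then 1 else 0 := ⟨_, rfl⟩
    have t1 : (∑ i, x i * if i.1 < 3 then 2 else 1) = 1 + m := by
      simp only [← sub_eq_iff_eq_add, hm, ← sum_sub_distrib, ← mul_sub]
      exact avg_eq hx fun i => by split_ifs <;> norm_num
    have p2 := fun j => n2 _ (single_mem_stdSimplex ℝ j)
    have p3 := fun j => n3 _ (single_mem_stdSimplex ℝ j)
    have q2 : 2 * m ≤ 3 * pay W2 x y z := by
      have : pay W2 x (Pi.single ⟨0, by omega⟩ 1 : Fin n → ℝ) z + pay W2 x (Pi.single ⟨1, by omega⟩ 1 : Fin n → ℝ) z +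
          pay W2 x (Pi.single ⟨2, by omega⟩ 1 : Fin n → ℝ) z = 2 * m := by
        simp only [pay2, Pi.single_apply, ite_mul, one_mul, zero_mul, sum_ite_eq', mem_univ, if_true, ← sum_add_distrib,
          ← mul_add, m2]
        refine avg_eq hz fun k => ?_
        rw [hm, mul_sum]
        exact sum_congr rfl fun i _ => by split_ifs <;> first | omega | ring
      linarith [p2 ⟨0, by omega⟩, p2 ⟨1, by omega⟩, p2 ⟨2, by omega⟩]
    have q3 : 2 * m ≤ 3 * pay W3 x y z := by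
      have : pay W3 x y (Pi.single ⟨0, by omega⟩ 1 : Fin n → ℝ) + pay W3 x y (Pi.single ⟨1, by omega⟩ 1 : Fin n → ℝ) +
          pay W3 x y (Pi.single ⟨2, by omega⟩ 1 : Fin n → ℝ) = 2 * m := by
        simp only [pay3, Pi.single_apply, ite_mul, one_mul, zero_mul, sum_ite_eq', mem_univ, if_true, ← sum_add_distrib,
          ← mul_add, m3]
        refine avg_eq hy fun k => ?_
        rw [hm, mul_sum]
        exact sum_congr rfl fun i _ => by split_ifs <;> first | omega | ring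
      linarith [p3 ⟨0, by omega⟩, p3 ⟨1, by omega⟩, p3 ⟨2, by omega⟩]
    have q1 := n1 _ (single_mem_stdSimplex ℝ ⟨3 + k, by omega⟩)
    have le1 : ∀ W, pay W x y z ≤ 1 := fun W => by
      rw [pay1]; exact avg hx fun i => avg hy fun j => avg hz fun k => by split_ifs <;> norm_num
    rw [pay1] at q1
    simp only [Pi.single_apply, ite_mul, one_mul, zero_mul, sum_ite_eq', mem_univ, if_true] at q1
    rw [cm y hy z hz ⟨3 + k, by omega⟩ (by simp), Nat.add_sub_cancel_left] at q1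
    suffices 2 ≤ pay W1 x y z + pay W2 x y z + pay W3 x y z by linarith
    by_contra hn
    have l1 := le1 W1
    have l2 := le1 W2
    have l3 := le1 W3
    generalize pay W1 x y z = u, pay W2 x y z = v, pay W3 x y z = w at *
    obtain ⟨s, hs⟩ : ∃ s, s = 3 - u - v - w := ⟨_, rfl⟩
    have s1 : 1 < s := by linarith
    have le : ∀ a, 0 ≤ a → a / s ≤ a := fun a h => div_le_self h s1.le
    have sm : (1 - u) / s + (1 - v) / s + (1 - w) / s = 1 := by field_simp; linarith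
    let p : Fin (3 + K) → ℝ := fun i => if i.1 = 0 then (1 - u) / s else if i.1 = 1 then (1 - v) / s else
      if i.1 = 2 then (1 - w) / s else 0
    have p0 : ∀ i : Fin (3 + K), 3 ≤ i.1 → p i = 0 := fun i h => by
      simp only [p]; rw [if_neg (by omega), if_neg (by omega), if_neg (by omega)]
    have ev : ∀ W, pay W p (Pi.single ⟨0, by omega⟩ 1 : Fin n → ℝ) (Pi.single ⟨0, by omega⟩ 1 : Fin n → ℝ) =
        (1 - u) / s * (if (0, 0, 0) ∈ W then 1 else 0) + (1 - v) / s * (if (1, 0, 0) ∈ W then 1 else 0) +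
          (1 - w) / s * if (2, 0, 0) ∈ W then 1 else 0 := fun W => by
      simp only [pay1, Pi.single_apply, ite_mul, one_mul, zero_mul, sum_ite_eq', mem_univ, if_true]
      rw [sum3 _ fun i h => by rw [p0 i h, zero_mul]]
      simp [p]
    have z1 := fun i => m1 i ⟨0, by omega⟩ ⟨0, by omega⟩
    have z2 := fun i => m2 i ⟨0, by omega⟩ ⟨0, by omega⟩
    have z3 := fun i => m3 i ⟨0, by omega⟩ ⟨0, by omega⟩
    refine po ⟨p, ⟨fun i => ?_, by rw [sum3 _ p0]; simpa [p] using sm⟩, _, single_mem_stdSimplex ℝ ⟨0, by omega⟩, _,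
      single_mem_stdSimplex ℝ ⟨0, by omega⟩, ?_⟩
    · simp only [p]
      split_ifs <;> first | exact le_rfl | exact div_nonneg (by linarith) (by linarith)
    simp only [ev, z1 ⟨0, by omega⟩, z1 ⟨1, by omega⟩, z1 ⟨2, by omega⟩, z2 ⟨0, by omega⟩, z2 ⟨1, by omega⟩,
      z2 ⟨2, by omega⟩, z3 ⟨0, by omega⟩, z3 ⟨1, by omega⟩, z3 ⟨2, by omega⟩]
    norm_num
    have := le (1 - u) (by linarith)
    have := le (1 - v) (by linarith)
    have := le (1 - w) (by linarith)
    refine ⟨by linarith, by linarith, by linarith, ?_⟩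
    by_contra h
    simp only [not_or, not_lt] at h
    linarith [h.1, h.2.1, h.2.2]
  · intro y hy z hz hc h
    let p : Fin (3 + K) → ℝ := fun i => if i.1 < 3 then 1 / 3 else 0
    have p0 : ∀ i : Fin (3 + K), 3 ≤ i.1 → p i = 0 := fun i h => if_neg h.not_gt
    have hp : p ∈ stdSimplex ℝ _ := ⟨fun i => by simp only [p]; split_ifs <;> norm_num, by
      rw [sum3 _ p0]; norm_num [p]⟩
    have a2 : ∀ y ∈ stdSimplex ℝ (Fin n), pay W2 p y z = 2 / 3 := fun y hy => by
      rw [pay2]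
      refine avg_eq hy fun j => avg_eq hz fun k => ?_
      simp only [m2]
      rw [sum3 _ fun i h => by rw [p0 i h, zero_mul]]
      simp only [p]
      split_ifs <;> first | omega | norm_num
    have a3 : ∀ z ∈ stdSimplex ℝ (Fin n), pay W3 p y z = 2 / 3 := fun z hz => by
      rw [pay2]
      refine avg_eq hy fun j => avg_eq hz fun k => ?_
      simp only [m3]
      rw [sum3 _ fun i h => by rw [p0 i h, zero_mul]]
      simp only [p]
      split_ifs <;> first | omega | norm_num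
    have a1 : ∀ i : Fin (3 + K), i.1 < 3 →
        (∑ j, y j * ∑ k, z k * if (i.1, j.1, k.1) ∈ W1 then 1 else 0) = 2 / 3 := fun i hi => by
      simp only [mul_sum, mul_left_comm (y _)]
      rw [sum_comm]
      simp only [← mul_sum]
      refine avg_eq hz fun k => ?_
      have := hc ((6 - i - k % 3) % 3) (by omega)
      rw [show (2 / 3 : ℝ) = 1 - 1 / 3 by norm_num, ← this, eq_sub_iff_add_eq]
      simp only [← sum_add_distrib, ← mul_add, m1, hi, if_true]
      exact avg_eq hy fun j => by split_ifs <;> first | omega | norm_num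
    have a0 : pay W1 p y z = 2 / 3 := by
      rw [pay1, sum3 _ fun i h => by rw [p0 i h, zero_mul], a1 _ (by simp), a1 _ (by simp), a1 _ (by simp)]
      norm_num [p]
    refine ⟨p, hp, y, hy, z, hz, fun x hx => ?_, fun y' h' => by rw [a2 _ h', a2 _ hy], fun z' h' => by
      rw [a3 _ h', a3 _ hz], ?_⟩
    · rw [a0, pay1]
      refine avg hx fun i => ?_
      by_cases hi : i.1 < 3
      · exact (a1 i hi).le
      · rw [cm y hy z hz i (by omega)]
        linarith [h (i - 3) (by omega)]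
    · rw [a0, a2 _ hy, a3 _ hz]
      rintro ⟨x', hx', y', hy', z', hz', b1, b2, b3, b4⟩
      have := (tot x' hx' y' hy' z' hz').trans (avg (v := 2) hx' fun i => by split_ifs <;> norm_num)
      rcases b4 with b | b | b <;> linarith

end Pool.Agent.H.MP_d68d66_lc
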