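import Pool.Agent.H.MP_d68d66_lc.A

/-! The reduction. -/

namespace Pool.Agent.H.MP_d68d66_lc

open Pool.Agent.Lib.CX Pool.Agent.Lib.ER Finset

set_option synthInstance.maxSize 4000

abbrev LP := List (ℕ × ℕ)
abbrev mt (e : ℕ × ℕ) (j t : ℕ) : Prop := (e.1 = 0 ∨ e.1 = j + 1) ∧ (e.2 = 0 ∨ e.2 = t + 1)
def CB (b : ℕ × ℕ × LP × LP) (s t : ℕ) : Bool :=
  decide (s % 3 = b.1 ∧ ¬(∃ e ∈ b.2.2.1, mt e (s / 3) t) ∨ s % 3 = b.2.1 ∧ ∃ e ∈ b.2.2.2, mt e (s / 3) t)
def Dj (P : LP) : Prop := P.Pairwise fun e f => ∀ j t, ¬(mt e j t ∧ mt f j t)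

section
variable {n : ℕ} {y z : Fin n → ℝ}

def Rm (y : Fin n → ℝ) (c r : ℕ) : ℝ := ∑ s, y s * if s.1 % 3 = c ∧ (r = 0 ∨ r = s.1 / 3 + 1) then 1 else 0
def Cm (z : Fin n → ℝ) (q : ℕ) : ℝ := ∑ t, z t * if q = 0 ∨ q = t.1 + 1 then 1 else 0
def ms (y z : Fin n → ℝ) (c : ℕ) (P : LP) : ℝ := (P.map fun e => Rm y c e.1 * Cm z e.2).sum

theorem ms_eq {c P} (h : Dj P) :
    (∑ s, y s * ∑ t, z t * if s.1 % 3 = c ∧ ∃ e ∈ P, mt e (s.1 / 3) t then 1 else 0) = ms y z c P := by
  induction P with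
  | nil => simp [ms]
  | cons e P ih =>
    obtain ⟨h1, h2⟩ := List.pairwise_cons.1 h
    simp only [ms, List.map_cons, List.sum_cons] at ih ⊢
    rw [← ih h2, Rm, Cm, sum_mul, ← sum_add_distrib]
    refine sum_congr rfl fun s _ => ?_
    rw [mul_assoc, ← mul_add]
    refine congrArg _ ?_
    rw [mul_sum, ← sum_add_distrib]
    refine sum_congr rfl fun t _ => ?_
    by_cases a : mt e (s.1 / 3) t
    · have : ¬∃ e ∈ P, mt e (s.1 / 3) t := fun ⟨f, p, q⟩ => h1 f p _ _ ⟨a, q⟩
      simp only [List.exists_mem_cons_iff, this, or_false]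
      simp only [mt, a.1, a.2, and_true, and_false, if_true, if_false]
      ring
    · simp only [List.exists_mem_cons_iff, a, false_or]
      rcases not_and_or.1 a with b | b <;> simp only [b, and_false, if_false] <;> ring

theorem cb_eq (hz : z ∈ stdSimplex ℝ (Fin n)) {c d R A} (h : c ≠ d) (hR : Dj R) (hA : Dj A) :
    (∑ s, y s * ∑ t, z t * if CB (c, d, R, A) s t then 1 else 0) = Rm y c 0 - ms y z c R + ms y z d A := by
  rw [← ms_eq hR, ← ms_eq hA, Rm]
  simp only [← sum_sub_distrib, ← sum_add_distrib, ← mul_sub, ← mul_add]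
  refine sum_congr rfl fun s _ => congrArg _ ?_
  rw [← avg_eq hz (f := fun _ => if s.1 % 3 = c ∧ (True ∨ 0 = s.1 / 3 + 1) then 1 else 0) fun _ => rfl]
  simp only [← sum_sub_distrib, ← sum_add_distrib, ← mul_sub, ← mul_add, CB, decide_eq_true_eq]
  refine sum_congr rfl fun t _ => congrArg _ ?_
  by_cases a : s.1 % 3 = c
  · simp only [a, h, true_and, false_and, or_false, true_or, if_true, if_false]
    split_ifs <;> simp
  · simp only [a, false_and, false_or, if_false, sub_zero, zero_add]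

theorem Rm_s {c j} (hc : c < 3) (h : 3 * j + c < n) : Rm y c (j + 1) = y ⟨3 * j + c, h⟩ := by
  rw [Rm, sum_eq_single ⟨3 * j + c, h⟩ (fun s _ q => by
    rw [if_neg, mul_zero]; exact fun r => q (Fin.ext (by simp only; omega))) (by simp), if_pos (by simp only; omega), mul_one]

theorem Cm_s {t} (h : t < n) : Cm z (t + 1) = z ⟨t, h⟩ := by
  rw [Cm, sum_eq_single ⟨t, h⟩ (fun s _ q => by
    rw [if_neg, mul_zero]; exact fun r => q (Fin.ext (by simp only; omega))) (by simp), if_pos (by simp), mul_one]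

theorem Cm_0 (hz : z ∈ stdSimplex ℝ (Fin n)) : Cm z 0 = 1 := by simp [Cm, hz.2]

end

def cons (M : ℕ) (E : List Q4) : List (LP × LP) := ([(2, 0)], []) ::
  (((List.range (2 * M)).flatMap fun j => [([(j + 1, 0)], [(j + 1, 0)]),
    ([(j + 1, 0)], [(0, 3 * j + 1), (0, 3 * j + 1 + 1), (0, 3 * j + 2 + 1)]), ([(0, 3 * j + 1)], [(0, 3 * j + 1 + 1)]),
    ([(0, 3 * j + 1)], [(0, 3 * j + 2 + 1)])]) ++
  ((List.range M).map fun i => ([(2 * i + 1, 0), (2 * i + 1 + 1, 0)], [(1, 0), (2, 0)])) ++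
  E.map fun e => ([(2 * e.1 + 1, 3 * (2 * e.2.1) + 1), (2 * e.1 + 1 + 1, 3 * (2 * e.2.1 + 1) + 1), (2 * e.2.2.1 + 1, 2),
    (2 * e.2.2.2 + 1 + 1, 3)], [(2 * e.1 + 1, 3 * (2 * e.2.1 + 1) + 1), (2 * e.1 + 1 + 1, 3 * (2 * e.2.1) + 1),
    (2 * e.2.2.1 + 1 + 1, 2), (2 * e.2.2.2 + 1, 3)]))

def bots (M : ℕ) (E : List Q4) : List (ℕ × ℕ × LP × LP) := (0, 1, [], []) :: (1, 0, [], []) :: (2, 0, [], []) ::
  (cons M E).flatMap fun p => [(1, 0, p.2, p.1), (0, 1, p.1, p.2)]

def red (a : List Unit × List Q4) : WL := game (bots a.1.length a.2).length (6 * a.1.length)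
  fun k => CB ((bots a.1.length a.2).getD k (0, 0, [], []))

theorem pt_red : PT red := by
  have h1 : PT fun a : List Unit × List Q4 => bots a.1.length a.2 := by unfold bots cons; fun_prop
  have h2 : PT fun a : List Unit × List (ℕ × ℕ × LP × LP) => game a.2.length (6 * a.1.length)
      fun k => CB (a.2.getD k (0, 0, [], [])) := by unfold game cells CB; fun_prop
  exact (h2.comp (g := fun a : List Unit × List Q4 => (a.1, bots a.1.length a.2)) (PT.pair (by fun_prop) h1) :)

theorem cons_dj {M E} : ∀ p ∈ cons M E, Dj p.1 ∧ Dj p.2 := by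
  simp only [cons, List.forall_mem_cons, List.forall_mem_append, List.forall_mem_flatMap, List.forall_mem_map, Dj,
    List.pairwise_cons, List.not_mem_nil, false_imp_iff, implies_true, List.Pairwise.nil, and_true, true_and]
  refine ⟨⟨fun j _ => ?_, fun j _ => ?_⟩, fun e _ => ?_⟩ <;> (repeat' apply And.intro) <;> intro j t <;> omega

theorem bots_iff {M E n} {y z : Fin n → ℝ} (hy : y ∈ stdSimplex ℝ (Fin n)) (hz : z ∈ stdSimplex ℝ (Fin n)) :
    (∀ k < (bots M E).length, 1 / 3 ≤ ∑ s, y s * ∑ t, z t * if CB ((bots M E).getD k (0, 0, [], [])) s t then 1 else 0) ↔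
    (∀ c < 3, Rm y c 0 = 1 / 3) ∧ ∀ p ∈ cons M E, ms y z 0 p.1 = ms y z 1 p.2 := by
  have d : Dj [] := .nil
  have t : Rm y 0 0 + Rm y 1 0 + Rm y 2 0 = 1 := by
    simp only [Rm, ← sum_add_distrib, ← mul_add, true_or, and_true]
    exact avg_eq hy fun s => by split_ifs <;> first | omega | norm_num
  trans ∀ b ∈ bots M E, 1 / 3 ≤ ∑ s, y s * ∑ t, z t * if CB b s t then 1 else 0
  · rw [List.forall_mem_iff_getElem]
    exact forall₂_congr fun k hk => by rw [List.getD_eq_getElem _ _ hk]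
  simp only [bots, List.forall_mem_cons, List.forall_mem_flatMap, List.not_mem_nil, false_imp_iff, implies_true, and_true]
  rw [cb_eq hz zero_ne_one d d, cb_eq hz one_ne_zero d d, cb_eq hz two_ne_zero d d]
  simp only [ms, List.map_nil, List.sum_nil, sub_zero, add_zero]
  constructor
  · rintro ⟨a, b, c, h⟩
    refine ⟨fun c hc => by interval_cases c <;> linarith, fun p hp => ?_⟩
    have := h p hp
    rw [cb_eq hz one_ne_zero (cons_dj p hp).2 (cons_dj p hp).1, cb_eq hz zero_ne_one (cons_dj p hp).1 (cons_dj p hp).2] at this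
    unfold ms at this
    linarith [this.1, this.2]
  · rintro ⟨a, h⟩
    refine ⟨(a 0 (by omega)).ge, (a 1 (by omega)).ge, (a 2 (by omega)).ge, fun p hp => ?_⟩
    rw [cb_eq hz one_ne_zero (cons_dj p hp).2 (cons_dj p hp).1, cb_eq hz zero_ne_one (cons_dj p hp).1 (cons_dj p hp).2,
      a 0 (by omega), a 1 (by omega)]
    unfold ms
    constructor <;> linarith [h p hp]

theorem sum6 (g : ℕ → ℝ) (M : ℕ) : ∑ s : Fin (6 * M), g s = ∑ i ∈ range M,
    (g (6 * i) + g (6 * i + 1) + g (6 * i + 2) + g (6 * i + 3) + g (6 * i + 4) + g (6 * i + 5)) := by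
  rw [Fin.sum_univ_eq_sum_range]
  induction M with
  | zero => simp
  | succ M ih => rw [sum_range_succ, ← ih, mul_add_one]; simp only [sum_range_succ]; ring

theorem hard : Red ETR PO := by
  refine etr_of_bq red pt_red fun M E h0 hE => ?_
  generalize hM : M.length = m at *
  obtain ⟨g1, g2⟩ := @game_iff (bots m E).length (6 * m) (fun k => CB ((bots m E).getD k (0, 0, [], []))) (by omega)
  simp only [red, hM]
  have m0 : (0 : ℝ) < m := by exact_mod_cast h0
  constructor
  · rintro ⟨x, x0, xb, hx⟩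
    let w : ℕ → ℝ := fun j => (if j % 2 = 0 then 1 + x (j / 2) else 1 - x (j / 2)) / (6 * m)
    have w1 : ∀ i, w (2 * i) = (1 + x i) / (6 * m) := fun i => by simp [w]
    have w2 : ∀ i, w (2 * i + 1) = (1 - x i) / (6 * m) := fun i => by simp [w, show (2 * i + 1) / 2 = i by omega]
    have s3 : ∀ c < 3, (∑ s : Fin (6 * m), w (s.1 / 3) * if s.1 % 3 = c then 1 else 0) = 1 / 3 := fun c hc => by
      rw [sum6 fun s => w (s / 3) * if s % 3 = c then 1 else 0, sum_congr rfl (g := fun _ => 1 / (3 * (m : ℝ))) fun i _ => ?_]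
      · simp; field_simp
      rw [show 6 * i / 3 = 2 * i by omega, show (6 * i + 1) / 3 = 2 * i by omega, show (6 * i + 2) / 3 = 2 * i by omega,
        show (6 * i + 3) / 3 = 2 * i + 1 by omega, show (6 * i + 4) / 3 = 2 * i + 1 by omega,
        show (6 * i + 5) / 3 = 2 * i + 1 by omega, w1, w2]
      split_ifs <;> first | omega | (field_simp; ring)
    have hy : (fun s : Fin (6 * m) => w (s.1 / 3)) ∈ stdSimplex ℝ _ := ⟨fun s => div_nonneg (by
      have := abs_le.1 (xb (s.1 / 3 / 2)); split_ifs <;> linarith [this.1, this.2]) (by linarith), by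
      have := congrArg₂ (· + ·) (congrArg₂ (· + ·) (s3 0 (by omega)) (s3 1 (by omega))) (s3 2 (by omega))
      simp only [← sum_add_distrib] at this
      exact (sum_congr rfl fun s _ => by split_ifs <;> first | omega | ring).trans (this.trans (by norm_num))⟩
    refine g2 _ hy _ hy s3 ((bots_iff hy hy).2 ⟨fun c hc => by simpa [Rm] using s3 c hc, ?_⟩)
    have r : ∀ c < 3, ∀ j < 2 * m, Rm (fun s : Fin (6 * m) => w (s.1 / 3)) c (j + 1) = w j := fun c hc j hj => by
      rw [Rm_s hc (by omega)]; congr 1; simp only; omega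
    have r0 : ∀ c < 3, Rm (fun s : Fin (6 * m) => w (s.1 / 3)) c 0 = 1 / 3 := fun c hc => by simpa [Rm] using s3 c hc
    have q : ∀ j < 2 * m, ∀ c < 3, Cm (fun s : Fin (6 * m) => w (s.1 / 3)) (3 * j + c + 1) = w j := fun j hj c hc => by
      rw [Cm_s (by omega)]; congr 1; simp only; omega
    have q0 := fun j hj => q j hj 0 (by omega)
    have v0 := w1 0
    have v1 := w2 0
    simp only [add_zero, mul_zero, zero_add, x0, sub_self, zero_div] at q0 v0 v1
    simp only [cons, List.forall_mem_cons, List.forall_mem_append, List.forall_mem_flatMap, List.forall_mem_map, ms,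
      List.map_cons, List.map_nil, List.sum_cons, List.sum_nil, List.not_mem_nil, false_imp_iff, implies_true, Cm_0 hy,
      List.mem_range, r0 0 (by omega), r0 1 (by omega), r 0 (by omega) 1 (by omega), r 1 (by omega) 1 (by omega),
      r 1 (by omega) 0 (by omega), q 0 (by omega) 1 (by omega), q 0 (by omega) 2 (by omega), v0, v1, and_true]
    refine ⟨by simp, ⟨fun j hj => ?_, fun i hi => ?_⟩, fun e he => ?_⟩
    · rw [r 0 (by omega) j hj, r 1 (by omega) j hj, q0 j hj, q j hj 1 (by omega), q j hj 2 (by omega)]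
      exact ⟨rfl, by ring, rfl, rfl⟩
    · rw [r 0 (by omega) _ (by omega), r 0 (by omega) _ (by omega), w1, w2]; ring
    · obtain ⟨a, b, c, d⟩ := hE e he
      have := hx e he
      unfold Q4.ok at this
      rw [r 0 (by omega) _ (by omega), r 0 (by omega) _ (by omega), r 0 (by omega) _ (by omega), r 0 (by omega) _ (by omega),
        r 1 (by omega) _ (by omega), r 1 (by omega) _ (by omega), r 1 (by omega) _ (by omega), r 1 (by omega) _ (by omega),
        q0 _ (by omega), q0 _ (by omega)]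
      simp only [w1, w2, ← this]
      ring
  · intro h
    obtain ⟨y, hy, z, hz, h⟩ := g1 h
    obtain ⟨r0, h⟩ := (bots_iff hy hz).1 h
    simp only [cons, List.forall_mem_cons, List.forall_mem_append, List.forall_mem_flatMap, List.forall_mem_map, ms,
      List.map_cons, List.map_nil, List.sum_cons, List.sum_nil, List.not_mem_nil, false_imp_iff, implies_true, Cm_0 hz,
      List.mem_range, r0 0 (by omega), r0 1 (by omega), and_true, mul_one, add_zero] at h
    obtain ⟨h1, ⟨h2, h3⟩, h4⟩ := h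
    have a : ∀ j < 2 * m, Rm y 1 (j + 1) = Rm y 0 (j + 1) ∧ Cm z (3 * j + 1) = Rm y 0 (j + 1) ∧
        Cm z (3 * j + 1 + 1) = Rm y 0 (j + 1) ∧ Cm z (3 * j + 2 + 1) = Rm y 0 (j + 1) := fun j hj => by
      obtain ⟨a, b, c, d⟩ := h2 j hj
      exact ⟨a.symm, by linarith, by linarith, by linarith⟩
    obtain ⟨a1, -, a2, a3⟩ := a 0 (by omega)
    have a4 := (a 1 (by omega)).1
    simp only [zero_add, mul_zero, Nat.reduceAdd] at a1 a2 a3 a4
    have u0 : Rm y 0 1 ≠ 0 := fun q => by
      have := r0 0 (by omega)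
      rw [Rm, sum_eq_zero fun s _ => ?_] at this
      · norm_num at this
      simp only [true_or, and_true]
      split_ifs with c
      · have e := h3 (s.1 / 6) (by omega)
        rw [Rm_s (by omega) (by omega), Rm_s (by omega) (by omega), a1, a4, q, h1] at e
        have p1 := hy.1 ⟨3 * (2 * (s.1 / 6)) + 0, by omega⟩
        have p2 := hy.1 ⟨3 * (2 * (s.1 / 6) + 1) + 0, by omega⟩
        rcases (by omega : s.1 = 3 * (2 * (s.1 / 6)) + 0 ∨ s.1 = 3 * (2 * (s.1 / 6) + 1) + 0) with t | t <;>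
          rw [mul_one, show s = ⟨_, by omega⟩ from Fin.ext t] <;> linarith
      · exact mul_zero _
    refine ⟨fun i => (Rm y 0 (2 * i + 1) - Rm y 0 (2 * i + 1 + 1)) / Rm y 0 1, by simp [h1, u0], fun e he => ?_⟩
    obtain ⟨b, c, d, f⟩ := hE e he
    have := h4 e he
    rw [(a _ (by omega)).1, (a _ (by omega)).1, (a _ (by omega)).1, (a _ (by omega)).1, (a _ (by omega)).2.1,
      (a _ (by omega)).2.1, a2, a3] at this
    unfold Q4.ok
    field_simp
    linarith

end Pool.Agent.H.MP_d68d66_lc
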